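import Pool.Agent.Helper32.PC.Greedy

/-!
MP_a7a5c5_an, Q1: every super-reflexive normed space, of any density character, has simultaneous
packing and covering constant strictly less than 2.
-/

set_option autoImplicit false

namespace Pool.Agent.Results.MP_a7a5c5_an.NoSuperReflexive

open Pool.Agent.R571.PC

theorem result (X : Type*) [NormedAddCommGroup X] [NormedSpace ℝ X]
    (h : HasEquivUCNorm (UniformSpace.Completion X)) : gamma X < 2 :=
  Pool.Agent.Helper32.PC.gamma_lt_two' (ucnorm_of_completion h)

end Pool.Agent.Results.MP_a7a5c5_an.NoSuperReflexive
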